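import Pool.Agent.Helper75.Torus.Goals

set_option autoImplicit false

/-!
# Packet TORUS-CONVT
-/

open Set MeasureTheory Filter Topology

namespace Pool.Agent.Helper85.Torus

open Pool.Agent.Helper75.Torus
open Pool.Agent.Helper75.Flow (LipField IsFlow IsJac EulerOn curlL)

/-! ### Linear algebra -/

theorem vec_sum (h : E) : h = ∑ j, h j • (Pi.single j (1 : ℝ) : E) := by
  funext k
  simp [Finset.sum_apply, Pi.single_apply]

theorem map_vec {F : Type} [NormedAddCommGroup F] [NormedSpace ℝ F] (L : E →L[ℝ] F) (h : E) :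
    L h = ∑ j, h j • L (Pi.single j (1 : ℝ)) := by
  conv_lhs => rw [vec_sum h]
  rw [map_sum]
  simp only [map_smul]

theorem opn {L : E →L[ℝ] ℝ} {C : ℝ} (hC : 0 ≤ C) (h : ∀ j, |L (Pi.single j (1 : ℝ))| ≤ C) :
    ‖L‖ ≤ 3 * C := by
  apply ContinuousLinearMap.opNorm_le_bound _ (by positivity)
  intro x
  rw [map_vec L x, Real.norm_eq_abs]
  calc |∑ j, x j • L (Pi.single j (1 : ℝ))| ≤ ∑ j, |x j • L (Pi.single j (1 : ℝ))| :=
        Finset.abs_sum_le_sum_abs _ _
    _ ≤ ∑ _j : Fin 3, ‖x‖ * C := by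
        apply Finset.sum_le_sum
        intro j _
        rw [smul_eq_mul, abs_mul]
        exact mul_le_mul (norm_le_pi_norm x j) (h j) (abs_nonneg _) (norm_nonneg _)
    _ = 3 * C * ‖x‖ := by
        rw [Finset.sum_const, Finset.card_univ, Fintype.card_fin]
        simp
        ring

/-- elementary operators -/
noncomputable def Bop (i j : Fin 3) : E →L[ℝ] E :=
  (ContinuousLinearMap.proj (R := ℝ) (φ := fun _ : Fin 3 => ℝ) j).smulRight
    (Pi.single i (1 : ℝ) : E)

theorem op_sum (L : E →L[ℝ] E) : L = ∑ i, ∑ j, (L (Pi.single j (1 : ℝ)) i) • Bop i j := by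
  apply ContinuousLinearMap.ext
  intro h
  funext k
  rw [map_vec L h, Finset.sum_comm]
  simp only [Finset.sum_apply, Pi.smul_apply, smul_eq_mul, _root_.sum_apply,
    _root_.smul_apply, Bop, ContinuousLinearMap.smulRight_apply,
    ContinuousLinearMap.proj_apply]
  apply Finset.sum_congr rfl
  intro j _
  rw [Finset.sum_eq_single k]
  · simp
    ring
  · intro i _ hik
    simp [Pi.single_apply, Ne.symm hik]
  · intro hk
    exact absurd (Finset.mem_univ k) hk

/-! ### Derivatives of vector fields -/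

theorem hasF (v : E → E) {x : E} (hd : ∀ i, DifferentiableAt ℝ (fun y => v y i) x) :
    HasFDerivAt v (ContinuousLinearMap.pi fun i => fderiv ℝ (fun y => v y i) x) x := by
  rw [hasFDerivAt_pi']
  intro i
  exact (hd i).hasFDerivAt

theorem fd_entry (v : E → E) {x : E} (hd : ∀ i, DifferentiableAt ℝ (fun y => v y i) x)
    (i j : Fin 3) : fderiv ℝ v x (Pi.single j 1) i = pd j (fun y => v y i) x := by
  rw [(hasF v hd).fderiv]
  rfl

theorem pd_zero (i j : Fin 3) (x : E) : pd j (fun z => (0 : E → E) z i) x = 0 := by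
  have : (fun z => (0 : E → E) z i) = fun _ => (0 : ℝ) := rfl
  rw [this]
  simp [pd]

theorem thm : G_CONVT := by
  intro α t u hα hα1 ht hu
  obtain ⟨hv, ⟨C, hC⟩, hcu, hcd, p, hp2, hcp, hcpp, heq⟩ := hu
  have hC0 : (0 : ℝ) ≤ |C| := abs_nonneg C
  have hb' : ∀ s ∈ Icc 0 t, ∀ i j, ∀ x, |pd j (fun z => u s z i) x| ≤ |C| := by
    intro s hs i j x
    have := ((hC s hs i x).2 j).1
    rw [pd_zero, sub_zero] at this
    exact le_trans this (le_abs_self C)
  have hhol : ∀ s ∈ Icc 0 t, ∀ i j, ∀ x y,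
      |pd j (fun z => u s z i) x - pd j (fun z => u s z i) y| ≤ |C| * ‖x - y‖ ^ α := by
    intro s hs i j x y
    have := ((hC s hs i x).2 j).2 y
    rw [pd_zero, pd_zero, sub_zero, sub_zero] at this
    refine le_trans this ?_
    exact mul_le_mul_of_nonneg_right (le_abs_self C) (Real.rpow_nonneg (norm_nonneg _) _)
  have hdiff : ∀ s ∈ Icc 0 t, ∀ i, ∀ x, DifferentiableAt ℝ (fun y => u s y i) x := by
    intro s hs i x
    exact ((hv s hs).1 i).differentiable (by norm_num) x
  have hlip : ∀ s ∈ Icc 0 t, ∀ x y, ‖u s x - u s y‖ ≤ 3 * |C| * ‖x - y‖ := by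
    intro s hs x y
    rw [pi_norm_le_iff_of_nonneg (by positivity)]
    intro i
    have := (convex_univ (𝕜 := ℝ) (E := E)).norm_image_sub_le_of_norm_fderiv_le
      (f := fun y => u s y i) (C := 3 * |C|) (x := y) (y := x) (fun z _ => hdiff s hs i z)
      (fun z _ => opn hC0 fun j => hb' s hs i j z) (mem_univ _) (mem_univ _)
    exact this
  have hE : ∀ s ∈ Icc 0 t, ∀ x, ∀ i j,
      fderiv ℝ (u s) x (Pi.single j 1) i = pd j (fun y => u s y i) x := by
    intro s hs x i j
    exact fd_entry (u s) (fun i => hdiff s hs i x) i j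
  -- the pressure gradient
  have hpc1 : ∀ s ∈ Icc 0 t, ∀ i, ContDiff ℝ 1 (pd i (p s)) := by
    intro s hs i
    have h1 : ContDiff ℝ 1 (fderiv ℝ (p s)) := (hp2 s hs).1.fderiv_right (by norm_num)
    exact h1.clm_apply contDiff_const
  have hpd : ∀ s ∈ Icc 0 t, ∀ i, ∀ x, DifferentiableAt ℝ (pd i (p s)) x := by
    intro s hs i x
    exact (hpc1 s hs i).differentiable (by norm_num) x
  have hG : ∀ s ∈ Icc 0 t, ∀ x, HasFDerivAt (fun y i => pd i (p s) y)
      (ContinuousLinearMap.pi fun i => fderiv ℝ (fun y => pd i (p s) y) x) x := by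
    intro s hs x
    exact hasF (fun y i => pd i (p s) y) fun i => hpd s hs i x
  have hGE : ∀ s ∈ Icc 0 t, ∀ x, ∀ i j : Fin 3,
      fderiv ℝ (fun y (i : Fin 3) => pd i (p s) y) x (Pi.single j 1) i
        = pd j (pd i (p s)) x := by
    intro s hs x i j
    rw [(hG s hs x).fderiv]
    rfl
  have hsym : ∀ s ∈ Icc 0 t, ∀ x, ∀ i j : Fin 3,
      pd j (pd i (p s)) x = pd i (pd j (p s)) x := by
    intro s hs x
    have hc : ContDiffAt ℝ 2 (p s) x := (hp2 s hs).1.contDiffAt
    have hs2 : IsSymmSndFDerivAt ℝ (p s) x := by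
      apply hc.isSymmSndFDerivAt
      simp
    have key : ∀ i j : Fin 3, pd j (pd i (p s)) x
        = fderiv ℝ (fderiv ℝ (p s)) x (Pi.single j 1) (Pi.single i 1) := by
      intro i j
      have hd : DifferentiableAt ℝ (fderiv ℝ (p s)) x := by
        have : ContDiffAt ℝ 1 (fderiv ℝ (p s)) x := hc.fderiv_right (by norm_num)
        exact this.differentiableAt (by norm_num)
      have h3 := (hd.hasFDerivAt.clm_apply (hasFDerivAt_const (Pi.single i (1 : ℝ) : E) x)).fderiv
      show fderiv ℝ (fun y => fderiv ℝ (p s) y (Pi.single i 1)) x _ = _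
      rw [h3]
      simp
    intro i j
    rw [key i j, key j i]
    exact hs2 _ _
  refine ⟨10 * (|C| + 1), fun s x i => pd i (p s) x, p, ⟨ht, ⟨by positivity, ?_, ?_⟩,
    isOpen_univ, ?_, ?_, ?_, ?_, ?_, ?_, ?_, ?_⟩, ?_, ?_⟩
  · rw [continuousOn_pi]
    intro i
    exact hcu i
  · intro s hs x y
    refine le_trans (hlip s hs x y) ?_
    apply mul_le_mul_of_nonneg_right _ (norm_nonneg _)
    linarith
  · exact fun s hs x _ => (hasF (u s) fun i => hdiff s hs i x).differentiableAt
  · have h1 : ContinuousOn (fun z : ℝ × E => ∑ i, ∑ j,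
        (pd j (fun y => u z.1 y i) z.2) • Bop i j) (Icc 0 t ×ˢ univ) := by
      refine continuousOn_finset_sum _ fun i _ => continuousOn_finset_sum _ fun j _ => ?_
      exact (hcd i j).smul continuousOn_const
    refine h1.congr ?_
    intro z hz
    show fderiv ℝ (u z.1) z.2 = _
    rw [op_sum (fderiv ℝ (u z.1) z.2)]
    refine Finset.sum_congr rfl fun i _ => Finset.sum_congr rfl fun j _ => ?_
    rw [hE z.1 hz.1 z.2 i j]
  · intro s hs x _
    have := (hv s hs).2.2.2 x
    rw [← this]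
    exact Finset.sum_congr rfl fun i _ => hE s hs x i i
  · exact fun s hs x _ => (hG s hs x).differentiableAt
  · rw [continuousOn_pi]
    intro i
    exact hcp i
  · have h1 : ContinuousOn (fun z : ℝ × E => ∑ i, ∑ j,
        (pd j (pd i (p z.1)) z.2) • Bop i j) (Icc 0 t ×ˢ univ) := by
      refine continuousOn_finset_sum _ fun i _ => continuousOn_finset_sum _ fun j _ => ?_
      exact (hcpp i j).smul continuousOn_const
    refine h1.congr ?_
    intro z hz
    show fderiv ℝ (fun y (i : Fin 3) => pd i (p z.1) y) z.2 = _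
    rw [op_sum (fderiv ℝ (fun y (i : Fin 3) => pd i (p z.1) y) z.2)]
    refine Finset.sum_congr rfl fun i _ => Finset.sum_congr rfl fun j _ => ?_
    rw [hGE z.1 hz.1 z.2 i j]
  · intro s hs x _ i j
    show fderiv ℝ (fun y (i : Fin 3) => pd i (p s) y) x (Pi.single j 1) i
      = fderiv ℝ (fun y (i : Fin 3) => pd i (p s) y) x (Pi.single i 1) j
    rw [hGE s hs x i j, hGE s hs x j i]
    exact hsym s hs x i j
  · intro s hs x _
    rw [hasDerivWithinAt_pi]
    intro i
    have e1 : (-(fderiv ℝ (u s) x (u s x)) - fun i => pd i (p s) x) i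
        = -(∑ j, u s x j * pd j (fun y => u s y i) x) - pd i (p s) x := by
      have e2 : fderiv ℝ (u s) x (u s x) i
          = ∑ j, u s x j * pd j (fun y => u s y i) x := by
        rw [map_vec (fderiv ℝ (u s) x) (u s x), Finset.sum_apply]
        refine Finset.sum_congr rfl fun j _ => ?_
        rw [Pi.smul_apply, smul_eq_mul, hE s hs x i j]
      show -(fderiv ℝ (u s) x (u s x) i) - pd i (p s) x = _
      rw [e2]
    rw [e1]
    exact heq s hs x i
  · intro s hs
    exact ⟨(hp2 s hs).1.differentiable (by norm_num), fun x j => rfl⟩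
  · intro s hs i
    refine ⟨(hv s hs).1 i, fun x y j => ?_⟩
    refine le_trans (hhol s hs i j x y) ?_
    apply mul_le_mul_of_nonneg_right _ (Real.rpow_nonneg (norm_nonneg _) _)
    linarith

end Pool.Agent.Helper85.Torus
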